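import Pool.Agent.N483.KM.Stm
import Pool.Agent.R755.KF.P2
import Pool.Agent.R755.KF.T2

/-!
# Sections of maximal volume: from large to small scales (KM14)
-/

set_option autoImplicit false

namespace Pool.Agent.N546.KM

open MeasureTheory Set Filter Topology
open scoped ENNReal InnerProductSpace
open Pool.Agent.H888R2.KT (gs gc)
open Pool.Agent.R754.KG (E un sl Rv)
open Pool.Agent.R755.KF (BL PB PW zn ey e2 om sd aff PLH PL3 CB lw zn_ok)
open Pool.Agent.N483.KM (S_DAF S_DWN)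

namespace DWNaux

variable {k : ℕ}

theorem sq_int {h B : ℝ} {νa νb : Measure (E k)} (hh : 0 < h) (hB : 0 ≤ B)
    (ha : PB B νa) (hb : PB B νb) :
    Integrable (fun y => Real.sqrt (zn h νa y * zn h νb y)) := by
  obtain ⟨ca, pa, _, _, _, ia, _⟩ := zn_ok k h B νa hh hB ha
  obtain ⟨cb, pb, _, _, _, ib, _⟩ := zn_ok k h B νb hh hB hb
  have hc : Continuous (fun y => Real.sqrt (zn h νa y * zn h νb y)) :=
    (ca.continuous.mul cb.continuous).sqrt
  refine Integrable.mono' (ia.add ib) hc.aestronglyMeasurable (ae_of_all _ fun y => ?_)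
  have h1 := (pa y).le
  have h2 := (pb y).le
  rw [Real.norm_eq_abs, abs_of_nonneg (Real.sqrt_nonneg _), Pi.add_apply]
  refine Real.sqrt_le_iff.2 ⟨by linarith, ?_⟩
  nlinarith [mul_nonneg h1 h2, sq_nonneg (zn h νa y), sq_nonneg (zn h νb y)]

/-- the derivative is bounded -/
theorem der_le {t B η : ℝ} {νa νb : Measure (E k)} (ht : 0 < t) (hB : 0 ≤ B)
    (ha : PB B νa) (hb : PB B νb) (hP : PLH t η νa νb)
    (hi : Integrable (fun y => Real.sqrt (zn t νa y * zn t νb y) * ‖sd t νa νb y‖ ^ 2)) :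
    aff t νa νb + t * (1 / 2 * ((gc (Fin k) t)⁻¹ *
      ∫ y, Real.sqrt (zn t νa y * zn t νb y) * ‖sd t νa νb y‖ ^ 2)) ≤ 1 + η := by
  obtain ⟨Zm, hZ0, hZi, hZ1, hZ2⟩ := hP
  have hg0 := Pool.Agent.R755.KF.T2aux.gcp (k := k) ht
  have hq := sq_int ht hB ha hb
  have hpt : ∀ y, Real.sqrt (zn t νa y * zn t νb y) +
      t / 2 * (Real.sqrt (zn t νa y * zn t νb y) * ‖sd t νa νb y‖ ^ 2) ≤ Zm y := by
    intro y
    have h1 := Pool.Agent.R755.KF.T2aux.pointwise zn_ok ht hB ha hb Zm hZ0 hZ2 y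
    calc _ = Real.sqrt (zn t νa y * zn t νb y) * (1 + t / 2 * ‖sd t νa νb y‖ ^ 2) := by ring
      _ ≤ _ := h1
  have hint : (∫ y, Real.sqrt (zn t νa y * zn t νb y)) +
      t / 2 * ∫ y, Real.sqrt (zn t νa y * zn t νb y) * ‖sd t νa νb y‖ ^ 2 ≤
      (1 + η) * gc (Fin k) t := by
    rw [← integral_const_mul, ← integral_add hq (hi.const_mul _)]
    exact (integral_mono (hq.add (hi.const_mul _)) hZi hpt).trans hZ1
  rw [aff]
  have h8 := mul_le_mul_of_nonneg_left hint (inv_nonneg.2 hg0.le)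
  have h9 : (gc (Fin k) t)⁻¹ * ((1 + η) * gc (Fin k) t) = 1 + η := by
    field_simp
  rw [h9] at h8
  calc _ = (gc (Fin k) t)⁻¹ * ((∫ y, Real.sqrt (zn t νa y * zn t νb y)) +
      t / 2 * ∫ y, Real.sqrt (zn t νa y * zn t νb y) * ‖sd t νa νb y‖ ^ 2) := by ring
    _ ≤ _ := h8

end DWNaux

theorem t_DWN (hD : S_DAF) : S_DWN := by
  intro k B η h h1 νa νb hh hh1 hB hη ha hb hP
  have hder : ∀ t : ℝ, 0 < t → HasDerivAt (fun t => t * (η + (1 - aff t νa νb)))
      (1 * (η + (1 - aff t νa νb)) + t * (-(1 / 2 * ((gc (Fin k) t)⁻¹ *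
        ∫ y, Real.sqrt (zn t νa y * zn t νb y) * ‖sd t νa νb y‖ ^ 2)))) t := by
    intro t ht
    have h2 := (hD k B t νa νb ht hB ha hb).2
    exact (hasDerivAt_id t).mul ((h2.const_sub 1).const_add η)
  have hmono : MonotoneOn (fun t => t * (η + (1 - aff t νa νb))) (Icc h h1) := by
    refine monotoneOn_of_deriv_nonneg (convex_Icc h h1) ?_ ?_ ?_
    · intro t ht
      exact (hder t (hh.trans_le ht.1)).continuousAt.continuousWithinAt
    · intro t ht
      rw [interior_Icc] at ht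
      exact (hder t (hh.trans ht.1)).differentiableAt.differentiableWithinAt
    · intro t ht
      rw [interior_Icc] at ht
      have ht0 : 0 < t := hh.trans ht.1
      rw [(hder t ht0).deriv]
      have h3 := DWNaux.der_le ht0 hB ha hb (hP t ht.1.le ht.2.le)
        (hD k B t νa νb ht0 hB ha hb).1
      linarith
  exact hmono ⟨le_refl h, hh1⟩ ⟨hh1, le_refl h1⟩ hh1

end Pool.Agent.N546.KM
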